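import Pool.Agent.Q57.QP.Stm

/-! # QP-FREE: functions which depend only on some of the variables -/

set_option autoImplicit false

namespace Pool.Agent.Q57.QPF

open MeasureTheory MvPolynomial Topology
open Pool.Agent.Q57.QP Pool.Agent.Y230.PT Pool.Agent.Y230.PS
open scoped ENNReal

open Classical in
/-- the integral of a function of some of the coordinates -/
theorem lintegral_free {σ X : Type} [Fintype σ] [MeasurableSpace X] (ρ : σ → Measure X)
    [∀ i, SigmaFinite (ρ i)] {c : ℕ} (s : Fin c → σ) (hs : Function.Injective s)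
    (F : (Fin c → X) → ℝ≥0∞) (hF : Measurable F) :
    ∫⁻ x, F (fun t => x (s t)) ∂(Measure.pi ρ) =
      (∫⁻ y, F y ∂(Measure.pi fun t => ρ (s t))) *
        (Measure.pi fun i : {i // ¬ i ∈ Set.range s} => ρ i) Set.univ := by
  have h1 := measurePreserving_piEquivPiSubtypeProd ρ (fun i => i ∈ Set.range s)
  have hG : Measurable (fun y : {i // i ∈ Set.range s} → X => F fun t => y ⟨s t, t, rfl⟩) :=
    hF.comp (measurable_pi_lambda _ fun t => measurable_pi_apply _)
  have h2 := h1.lintegral_comp (f := fun z : ({i // i ∈ Set.range s} → X) ×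
    ({i // ¬ i ∈ Set.range s} → X) => F fun t => z.1 ⟨s t, t, rfl⟩) (hG.comp measurable_fst)
  have h3 := lintegral_prod_mul (μ := Measure.pi fun i : {i // i ∈ Set.range s} => ρ i)
    (ν := Measure.pi fun i : {i // ¬ i ∈ Set.range s} => ρ i) hG.aemeasurable
    (aemeasurable_const (b := (1 : ℝ≥0∞)))
  simp only [mul_one, lintegral_one] at h3
  have h4 := measurePreserving_piCongrLeft (fun i : {i // i ∈ Set.range s} => ρ i)
    (Equiv.ofInjective s hs)
  have h5 := h4.lintegral_comp hG
  have h6 : ∀ w : Fin c → X, (fun t => (MeasurableEquiv.piCongrLeft (fun _ => X)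
      (Equiv.ofInjective s hs)) w ⟨s t, t, rfl⟩) = w := by
    intro w
    funext t
    exact Equiv.piCongrLeft_apply_apply (fun _ => X) (Equiv.ofInjective s hs) w t
  have h7 : ∫⁻ y, F y ∂(Measure.pi fun t => ρ (s t)) =
      ∫⁻ y, F (fun t => y ⟨s t, t, rfl⟩) ∂(Measure.pi fun i : {i // i ∈ Set.range s} => ρ i) := by
    rw [← h5]
    refine lintegral_congr fun w => ?_
    rw [h6 w]
  rw [h7, ← h3]
  have h9 : (Set.fintypeRange s : Fintype {i // i ∈ Set.range s}) =
      Subtype.fintype fun i => i ∈ Set.range s := Subsingleton.elim _ _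
  rw [h9]
  exact h2

attribute [local instance] msK bsK

theorem qp_free : StBall → StFree := by
  intro hB p _ σ _ c s hs h' m P hsz hLP
  classical
  obtain ⟨U', hU'o, hPU', hU'⟩ := hLP
  have hp0 : (0 : ℝ) < p := by exact_mod_cast (Fact.out : p.Prime).pos
  have hcont : Continuous (fun (x : σ → ℚ_[p]) (t : Fin c) => x (s t)) :=
    continuous_pi fun t => continuous_apply (s t)
  have hsize : Siz (fun y : σ → ℚ_[p] => h' fun t => y (s t)) :=
    ⟨hsz.cont.comp hcont, fun x => hsz.val _⟩
  refine ⟨(fun (x : σ → ℚ_[p]) (t : Fin c) => x (s t)) ⁻¹' U', hU'o.preimage hcont, hPU', ?_⟩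
  refine hB p _ hsize m _ (hU'o.preimage hcont) fun a k hak => ?_
  have hr : (0 : ℝ) < (p : ℝ) ^ k := zpow_pos hp0 k
  -- the projection of the ball
  have hsub : Metric.closedBall (fun t => a (s t)) ((p : ℝ) ^ k) ⊆ U' := by
    intro y hy
    rw [Metric.mem_closedBall, dist_pi_le_iff hr.le] at hy
    have hx : (fun i => if hi : ∃ t, s t = i then y hi.choose else a i) ∈
        Metric.closedBall a ((p : ℝ) ^ k) := by
      rw [Metric.mem_closedBall, dist_pi_le_iff hr.le]
      intro i
      by_cases hi : ∃ t, s t = i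
      · rw [dif_pos hi]
        have h1 := hy hi.choose
        rw [hi.choose_spec] at h1
        exact h1
      · rw [dif_neg hi, dist_self]
        exact hr.le
    have h1 := hak hx
    rw [Set.mem_preimage] at h1
    have h2 : (fun t => (fun i => if hi : ∃ t, s t = i then y hi.choose else a i) (s t)) = y := by
      funext t
      have hi : ∃ t', s t' = s t := ⟨t, rfl⟩
      simp only
      rw [dif_pos hi, hs hi.choose_spec]
    rw [h2] at h1
    exact h1
  have hco : CO (Metric.closedBall (fun t => a (s t)) ((p : ℝ) ^ k)) :=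
    ⟨isCompact_closedBall _ _, IsUltrametricDist.isOpen_closedBall _ hr.ne'⟩
  have hFR := hU' _ hsub hco
  -- the constant
  obtain ⟨κ, hκ⟩ : ∃ κ : ℝ≥0∞, κ = (Measure.pi fun i : {i // ¬ i ∈ Set.range s} =>
    (nu p).restrict (Metric.closedBall (a i) ((p : ℝ) ^ k))) Set.univ := ⟨_, rfl⟩
  have hball : ∀ (τ : Type) [Fintype τ] (b : τ → ℚ_[p]),
      (muE p τ).restrict (Metric.closedBall b ((p : ℝ) ^ k)) =
        Measure.pi fun i => (nu p).restrict (Metric.closedBall (b i) ((p : ℝ) ^ k)) := by
    intro τ _ b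
    unfold muE
    rw [closedBall_pi b hr.le, Measure.restrict_pi_pi]
  have hint : ∀ r : ℝ, IZ (fun x : σ → ℚ_[p] => h' fun t => x (s t))
      (Metric.closedBall a ((p : ℝ) ^ k)) r =
      ((κ.toReal : ℝ) : ℂ) * IZ h' (Metric.closedBall (fun t => a (s t)) ((p : ℝ) ^ k)) r := by
    intro r
    unfold IZ
    have hmeas : Measurable (fun y : Fin c → ℚ_[p] => ENNReal.ofReal (h' y ^ r)) :=
      ENNReal.measurable_ofReal.comp (hsz.cont.measurable.pow_const r)
    rw [hball, hball, lintegral_free _ s hs _ hmeas, ENNReal.toReal_mul, Complex.ofReal_mul,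
      mul_comm, hκ]
  refine FR.congr (FR.mul0 (F := fun _ => ((κ.toReal : ℝ) : ℂ)) (fun T0 _ => Reg.const _) hFR)
    fun r _ => (hint r).symm

end Pool.Agent.Q57.QPF
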